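import Pool.Agent.R275.LOneBidual

/-!
# Uniform property (S) does not pass to the bidual

The real Banach space `L₁[0,1]` has uniform property (S), its bidual fails it.
-/

set_option autoImplicit false

open MeasureTheory Filter Topology

namespace Pool.Agent.Results.MP_973dba_an.BidualFails

open Pool.Agent.R275

/-- `U_X(x, y; a) = sup {| ‖x + z‖ - ‖y + z‖ | : ‖z‖ ≤ a}`. -/
noncomputable def U {X : Type*} [NormedAddCommGroup X] (x y : X) (a : ℝ) : ℝ :=
  sSup {r : ℝ | ∃ z : X, ‖z‖ ≤ a ∧ r = |‖x + z‖ - ‖y + z‖|}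

/-- Uniform property (S): for all `0 < d < 2` and `a > 0` the infimum `U_X(d; a)` of the numbers
`U_X(x, y; a)` over all norm one vectors `x, y` with `‖x - y‖ ≥ d` is positive, that is, these
numbers have a positive lower bound `c`. -/
def UniformS (X : Type*) [NormedAddCommGroup X] : Prop :=
  ∀ d a : ℝ, 0 < d → d < 2 → 0 < a →
    ∃ c : ℝ, 0 < c ∧ ∀ x y : X, ‖x‖ = 1 → ‖y‖ = 1 → d ≤ ‖x - y‖ → c ≤ U x y a

/-- The real Banach space `L₁[0,1]`. -/
abbrev L1I : Type := Lp ℝ 1 (volume.restrict (Set.Icc (0 : ℝ) 1))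

/-- Lebesgue measure on `[0,1]`. -/
noncomputable abbrev lam : Measure ℝ := volume.restrict (Set.Icc (0 : ℝ) 1)

lemma le_U {X : Type*} [NormedAddCommGroup X] (x y z : X) {a : ℝ} (hz : ‖z‖ ≤ a) :
    |‖x + z‖ - ‖y + z‖| ≤ U x y a := by
  refine le_csSup ⟨‖x - y‖, ?_⟩ ⟨z, hz, rfl⟩
  rintro r ⟨z, -, rfl⟩
  have h := abs_norm_sub_norm_le (x + z) (y + z)
  have e : x + z - (y + z) = x - y := by abel
  rwa [e] at h

/-- The effect of removing `x` on the set `s`. -/
lemma diff_cut {μ : Measure ℝ} {s : Set ℝ} (hs : MeasurableSet s) (x y : Lp ℝ 1 μ) :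
    ‖y - cut μ hs x‖ - ‖x - cut μ hs x‖ =
      ‖y‖ - ‖x‖ + ∫ t in s, (|x t - y t| + |x t| - |y t|) ∂μ := by
  have hx := (L1.integrable_coeFn x)
  have hy := (L1.integrable_coeFn y)
  have hxy : Integrable (fun t => x t - y t) μ := hx.sub hy
  have h0 := cut_coeFn hs x
  have e1 : ‖y - cut μ hs x‖ = ∫ t, |y t - s.indicator (x : ℝ → ℝ) t| ∂μ := by
    rw [L1.norm_eq_integral_norm]
    refine integral_congr_ae ?_
    filter_upwards [Lp.coeFn_sub y (cut μ hs x), h0] with t h1 h2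
    rw [h1, Pi.sub_apply, h2]; rfl
  have e2 : ‖x - cut μ hs x‖ = ∫ t, |x t - s.indicator (x : ℝ → ℝ) t| ∂μ := by
    rw [L1.norm_eq_integral_norm]
    refine integral_congr_ae ?_
    filter_upwards [Lp.coeFn_sub x (cut μ hs x), h0] with t h1 h2
    rw [h1, Pi.sub_apply, h2]; rfl
  have i1 : Integrable (fun t => |y t - s.indicator (x : ℝ → ℝ) t|) μ :=
    (hy.sub (hx.indicator hs)).abs
  have i2 : Integrable (fun t => |x t - s.indicator (x : ℝ → ℝ) t|) μ :=
    (hx.sub (hx.indicator hs)).abs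
  have i3 : Integrable (fun t => |x t - y t| + |x t| - |y t|) μ := (hxy.abs.add hx.abs).sub hy.abs
  have i4 : Integrable (fun t => |y t| - |x t|) μ := hy.abs.sub hx.abs
  have e3 : ‖y‖ - ‖x‖ = ∫ t, (|y t| - |x t|) ∂μ := by
    rw [L1.norm_eq_integral_norm, L1.norm_eq_integral_norm, ← integral_sub hy.norm hx.norm]
    rfl
  rw [e1, e2, e3, ← integral_sub i1 i2, ← integral_indicator hs,
    ← integral_add i4 (i3.indicator hs)]
  congr 1
  ext t
  by_cases ht : t ∈ s
  · simp only [Set.indicator_of_mem ht]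
    rw [sub_self, abs_zero, abs_sub_comm (y t) (x t)]
    ring
  · simp only [Set.indicator_of_notMem ht, sub_zero, add_zero]

/-- `L₁[0,1]` has uniform property (S). -/
theorem uniformS_L1 : UniformS L1I := by
  intro d a hd _ ha
  obtain ⟨n, hn⟩ := exists_nat_gt (1 / a)
  have hn0 : (0 : ℝ) < n := lt_trans (by positivity) hn
  have hn0' : 0 < n := by exact_mod_cast hn0
  have hna : 1 / (n : ℝ) ≤ a := by
    rw [div_le_iff₀ hn0]
    rw [div_lt_iff₀ ha] at hn
    linarith
  refine ⟨d / n, by positivity, fun x y hx hy hxy => ?_⟩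
  have ix : Integrable (x : ℝ → ℝ) lam := L1.integrable_coeFn x
  have iy : Integrable (y : ℝ → ℝ) lam := L1.integrable_coeFn y
  have hx' : ∫ t, |x t| ∂lam = 1 := by
    have h := hx
    rw [L1.norm_eq_integral_norm] at h
    exact h
  have hy' : ∫ t, |y t| ∂lam = 1 := by
    have h := hy
    rw [L1.norm_eq_integral_norm] at h
    exact h
  -- the distribution function of `|x|`
  set G : ℝ → ℝ := fun b => ∫ t in (0 : ℝ)..b, |x t| ∂lam with hG
  have hint : ∀ p q : ℝ, IntervalIntegrable (fun t => |x t|) lam p q :=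
    fun p q => ix.abs.intervalIntegrable
  have hGc : Continuous G := intervalIntegral.continuous_primitive hint 0
  have hG0 : G 0 = 0 := intervalIntegral.integral_same
  have hlam : lam.restrict (Set.Ioc (0 : ℝ) 1) = lam := by
    rw [Measure.restrict_restrict measurableSet_Ioc,
      Set.inter_eq_left.2 Set.Ioc_subset_Icc_self]
    exact Measure.restrict_congr_set Ioc_ae_eq_Icc
  have hG1 : G 1 = 1 := by
    rw [hG]
    simp only
    rw [intervalIntegral.integral_of_le zero_le_one, hlam, hx']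
  have hGmono : ∀ p q : ℝ, p ≤ q → G p ≤ G q := by
    intro p q hpq
    have : G q - G p = ∫ t in p..q, |x t| ∂lam :=
      intervalIntegral.integral_interval_sub_left (hint 0 q) (hint 0 p)
    have h2 : 0 ≤ ∫ t in p..q, |x t| ∂lam :=
      intervalIntegral.integral_nonneg hpq fun _ _ => abs_nonneg _
    linarith
  -- division points
  have hpts : ∀ j : ℕ, ∃ t : ℝ, j ≤ n → (G t = j / n ∧ (j = 0 → t = 0) ∧ (j = n → t = 1)) := by
    intro j
    by_cases hj0 : j = 0
    · refine ⟨0, fun _ => ⟨by rw [hG0, hj0]; simp, fun _ => rfl, fun h => ?_⟩⟩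
      omega
    by_cases hjn : j = n
    · refine ⟨1, fun _ => ⟨by rw [hG1, hjn, div_self hn0.ne'], fun h => absurd h hj0,
        fun _ => rfl⟩⟩
    by_cases hle : j ≤ n
    · have h1 : (j : ℝ) / n ∈ Set.Icc (G 0) (G 1) := by
        rw [hG0, hG1]
        refine ⟨by positivity, ?_⟩
        rw [div_le_one hn0]; exact_mod_cast hle
      obtain ⟨t, -, ht⟩ := intermediate_value_Icc zero_le_one hGc.continuousOn h1
      exact ⟨t, fun _ => ⟨ht, fun h => absurd h hj0, fun h => absurd h hjn⟩⟩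
    · exact ⟨0, fun h => absurd h hle⟩
  choose τ hτ using hpts
  have hτ0 : τ 0 = 0 := (hτ 0 (Nat.zero_le _)).2.1 rfl
  have hτn : τ n = 1 := (hτ n le_rfl).2.2 rfl
  have hstep : ∀ j, j < n → τ j ≤ τ (j + 1) := by
    intro j hj
    by_contra hlt
    push Not at hlt
    have h1 := hGmono _ _ hlt.le
    rw [(hτ j hj.le).1, (hτ (j + 1) hj).1, div_le_div_iff_of_pos_right hn0] at h1
    push_cast at h1
    linarith
  -- the function to be detected
  set ψ : ℝ → ℝ := fun t => |x t - y t| + |x t| - |y t| with hψ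
  have ixy : Integrable (fun t => |x t - y t|) lam := (ix.sub iy).abs
  have ixy' : Integrable (fun t => |x t - y t| + |x t|) lam := ixy.add ix.abs
  have iψ : Integrable ψ lam := ixy'.sub iy.abs
  have hsum : ∑ j ∈ Finset.range n, ∫ t in τ j..τ (j + 1), ψ t ∂lam = ‖x - y‖ := by
    rw [intervalIntegral.sum_integral_adjacent_intervals
      (fun k _ => iψ.intervalIntegrable), hτ0, hτn,
      intervalIntegral.integral_of_le zero_le_one, hlam]
    have e1 : ∫ t, ψ t ∂lam = ∫ t, |x t - y t| ∂lam + ∫ t, |x t| ∂lam - ∫ t, |y t| ∂lam := by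
      rw [← integral_add ixy ix.abs, ← integral_sub ixy' iy.abs]
    have e4 : ∫ t, |x t - y t| ∂lam = ‖x - y‖ := by
      rw [L1.norm_eq_integral_norm]
      refine integral_congr_ae ?_
      filter_upwards [Lp.coeFn_sub x y] with t ht
      rw [ht]; rfl
    rw [e1, hx', hy', e4]; ring
  obtain ⟨j, hj, hjd⟩ : ∃ j ∈ Finset.range n, d / n ≤ ∫ t in τ j..τ (j + 1), ψ t ∂lam := by
    by_contra hcon
    push Not at hcon
    have h1 : ∑ j ∈ Finset.range n, ∫ t in τ j..τ (j + 1), ψ t ∂lam <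
        ∑ _j ∈ Finset.range n, d / n :=
      Finset.sum_lt_sum_of_nonempty ⟨0, Finset.mem_range.2 hn0'⟩ hcon
    rw [hsum, Finset.sum_const, Finset.card_range, nsmul_eq_mul, mul_div_cancel₀ _ hn0.ne'] at h1
    linarith
  rw [Finset.mem_range] at hj
  have hs : MeasurableSet (Set.Ioc (τ j) (τ (j + 1))) := measurableSet_Ioc
  rw [intervalIntegral.integral_of_le (hstep j hj)] at hjd
  -- the perturbation
  have hz : ‖-cut lam hs x‖ ≤ a := by
    rw [norm_neg]
    have e1 : ‖cut lam hs x‖ = ∫ t in Set.Ioc (τ j) (τ (j + 1)), |x t| ∂lam := by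
      rw [L1.norm_eq_integral_norm, ← integral_indicator hs]
      refine integral_congr_ae ?_
      filter_upwards [cut_coeFn hs x] with t ht
      rw [ht]
      by_cases h : t ∈ Set.Ioc (τ j) (τ (j + 1))
      · rw [Set.indicator_of_mem h, Set.indicator_of_mem h]; rfl
      · rw [Set.indicator_of_notMem h, Set.indicator_of_notMem h, norm_zero]
    have e2 : ∫ t in Set.Ioc (τ j) (τ (j + 1)), |x t| ∂lam = G (τ (j + 1)) - G (τ j) := by
      rw [← intervalIntegral.integral_of_le (hstep j hj)]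
      exact (intervalIntegral.integral_interval_sub_left (hint 0 _) (hint 0 _)).symm
    rw [e1, e2, (hτ j hj.le).1, (hτ (j + 1) hj).1]
    have e3 : ((j + 1 : ℕ) : ℝ) / n - (j : ℝ) / n = 1 / n := by push_cast; ring
    rw [e3]; exact hna
  refine le_trans ?_ (le_U x y (-cut lam hs x) hz)
  have h5 := diff_cut hs x y
  rw [hx, hy, sub_self, zero_add] at h5
  rw [← sub_eq_add_neg, ← sub_eq_add_neg, abs_sub_comm, h5]
  exact hjd.trans (le_abs_self _)

/-- The bidual of `L₁[0,1]` fails uniform property (S). -/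
theorem not_uniformS_bidual : ¬ UniformS (StrongDual ℝ (StrongDual ℝ L1I)) := by
  intro H
  obtain ⟨c, hc, H⟩ := H 1 (1 / 4) one_pos (by norm_num) (by norm_num)
  -- the two halves
  have hB : MeasurableSet (Set.Icc (0 : ℝ) (1 / 2)) := measurableSet_Icc
  have hB' : MeasurableSet (Set.Ioc (1 / 2 : ℝ) 1) := measurableSet_Ioc
  have hsub : Set.Ioc (1 / 2 : ℝ) 1 ⊆ Set.Icc (0 : ℝ) 1 := fun t ht => ⟨by linarith [ht.1], ht.2⟩
  have m1 : lam (Set.Icc (0 : ℝ) (1 / 2)) ≠ 0 := by
    rw [Measure.restrict_apply hB,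
      Set.inter_eq_left.2 (Set.Icc_subset_Icc le_rfl (by norm_num)), Real.volume_Icc]
    norm_num
  have m2 : lam (Set.Ioc (1 / 2 : ℝ) 1) ≠ 0 := by
    rw [Measure.restrict_apply hB', Set.inter_eq_left.2 hsub, Real.volume_Ioc]
    norm_num
  have n1 : NeBot (ae (lam.restrict (Set.Icc (0 : ℝ) (1 / 2)))) := by
    rw [ae_neBot, Ne, Measure.restrict_eq_zero]; exact m1
  have n2 : NeBot (ae (lam.restrict (Set.Ioc (1 / 2 : ℝ) 1))) := by
    rw [ae_neBot, Ne, Measure.restrict_eq_zero]; exact m2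
  set W1 : Ultrafilter ℝ := Ultrafilter.of (ae (lam.restrict (Set.Icc (0 : ℝ) (1 / 2)))) with hW1
  set W2 : Ultrafilter ℝ := Ultrafilter.of (ae (lam.restrict (Set.Ioc (1 / 2 : ℝ) 1))) with hW2
  have l1 : (W1 : Filter ℝ) ≤ ae lam :=
    (Ultrafilter.of_le _).trans (Measure.absolutelyContinuous_of_le
      Measure.restrict_le_self).ae_le
  have l2 : (W2 : Filter ℝ) ≤ ae lam :=
    (Ultrafilter.of_le _).trans (Measure.absolutelyContinuous_of_le
      Measure.restrict_le_self).ae_le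
  have b1 : Set.Icc (0 : ℝ) (1 / 2) ∈ W1 := Ultrafilter.of_le _ (self_mem_ae_restrict hB)
  have b2 : Set.Ioc (1 / 2 : ℝ) 1 ∈ W2 := Ultrafilter.of_le _ (self_mem_ae_restrict hB')
  set D1 := atom lam W1 l1 with hD1
  set D2 := atom lam W2 l2 with hD2
  have hdisj : Set.Icc (0 : ℝ) (1 / 2) ∩ Set.Ioc (1 / 2 : ℝ) 1 = ∅ := by
    refine Set.eq_empty_iff_forall_notMem.2 ?_
    rintro t ⟨⟨_, h2⟩, ⟨h3, _⟩⟩
    linarith
  -- functionals living on one half are not seen by the other atom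
  have hcut0 : ∀ (s : Set ℝ) (hs : MeasurableSet s), s = ∅ → cut lam hs = 0 := by
    intro s hs h0
    ext1 f
    refine norm_le_zero_iff.1 ?_
    rw [L1.norm_eq_integral_norm]
    refine le_of_eq ?_
    rw [integral_eq_zero_of_ae]
    filter_upwards [cut_coeFn hs f] with t ht
    rw [ht, h0]; simp
  have s2 : ∀ h : L1I →L[ℝ] ℝ, h.comp (cut lam hB) = h → D2 h = 0 := by
    intro h hh
    refine atom_eq l2 (IsLim.of_cut hB' b2 ?_)
    rw [zero_smul, ← hh, comp_cut_cut, hcut0 _ (hB'.inter hB) (by rw [Set.inter_comm]; exact hdisj)]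
    ext f
    change h 0 = 0
    exact map_zero h
  have s1 : ∀ h : L1I →L[ℝ] ℝ, h.comp (cut lam hB') = h → D1 h = 0 := by
    intro h hh
    refine atom_eq l1 (IsLim.of_cut hB b1 ?_)
    rw [zero_smul, ← hh, comp_cut_cut, hcut0 _ (hB.inter hB') hdisj]
    ext f
    change h 0 = 0
    exact map_zero h
  -- the two points
  set x : StrongDual ℝ (StrongDual ℝ L1I) := (3 / 4 : ℝ) • D1 + (1 / 4 : ℝ) • D2 with hx
  set y : StrongDual ℝ (StrongDual ℝ L1I) := (1 / 4 : ℝ) • D1 + (3 / 4 : ℝ) • D2 with hy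
  have hn1 := norm_atom_le (μ := lam) l1
  have hn2 := norm_atom_le (μ := lam) l2
  -- the functional given by integration
  have hu : MeasurableSet (Set.univ : Set ℝ) := MeasurableSet.univ
  have hphin : ∀ (s : Set ℝ) (hs : MeasurableSet s), ‖phi lam hs‖ ≤ 1 := by
    intro s hs
    refine ContinuousLinearMap.opNorm_le_bound _ zero_le_one fun f => ?_
    rw [one_mul]
    exact (abs_phi_le hs f).trans (norm_cut_le hs f)
  have p1 : D1 (phi lam hu) = 1 := atom_eq l1 (IsLim.of_cut hB b1 (by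
    rw [one_smul, phi_comp_cut]; unfold phi; rw [cut_congr (hB.inter hu) hB (Set.inter_univ _)]))
  have p2 : D2 (phi lam hu) = 1 := atom_eq l2 (IsLim.of_cut hB' b2 (by
    rw [one_smul, phi_comp_cut]; unfold phi; rw [cut_congr (hB'.inter hu) hB' (Set.inter_univ _)]))
  have hcomb : ∀ s t : ℝ, 0 ≤ s → 0 ≤ t → s + t = 1 → ‖s • D1 + t • D2‖ = 1 := by
    intro s t hs ht hst
    refine le_antisymm ?_ ?_
    · have h0 : ‖s • D1 + t • D2‖ ≤ ‖s • D1‖ + ‖t • D2‖ := norm_add_le (s • D1) (t • D2)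
      have h1 : ‖s • D1‖ ≤ ‖s‖ * ‖D1‖ := ContinuousLinearMap.opNorm_smul_le s D1
      have h2 : ‖t • D2‖ ≤ ‖t‖ * ‖D2‖ := ContinuousLinearMap.opNorm_smul_le t D2
      rw [Real.norm_of_nonneg hs] at h1
      rw [Real.norm_of_nonneg ht] at h2
      have h3 : s * ‖D1‖ ≤ s * 1 := mul_le_mul_of_nonneg_left hn1 hs
      have h4 : t * ‖D2‖ ≤ t * 1 := mul_le_mul_of_nonneg_left hn2 ht
      linarith
    · have h1 := (s • D1 + t • D2).le_opNorm (phi lam hu)
      have h2 : (s • D1 + t • D2) (phi lam hu) = s * D1 (phi lam hu) + t * D2 (phi lam hu) := rfl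
      rw [h2, p1, p2, mul_one, mul_one, hst, norm_one] at h1
      have h3 := hphin _ hu
      have h4 : ‖s • D1 + t • D2‖ * ‖phi lam hu‖ ≤ ‖s • D1 + t • D2‖ * 1 :=
        mul_le_mul_of_nonneg_left h3 (ContinuousLinearMap.opNorm_nonneg _)
      linarith
  have hxn : ‖x‖ = 1 := hcomb _ _ (by norm_num) (by norm_num) (by norm_num)
  have hyn : ‖y‖ = 1 := hcomb _ _ (by norm_num) (by norm_num) (by norm_num)
  -- the distance of the two points
  have hdist : (1 : ℝ) ≤ ‖x - y‖ := by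
    set k : L1I →L[ℝ] ℝ := phi lam hB - phi lam hB' with hk
    have hk1 : ‖k‖ ≤ 1 := by
      refine ContinuousLinearMap.opNorm_le_bound _ zero_le_one fun f => ?_
      rw [one_mul]
      have e1 : k f = phi lam hB f - phi lam hB' (f - cut lam hB f) := by
        change phi lam hB f - phi lam hB' f = _
        rw [map_sub, phi_cut]
        have e2 : phi lam (hB.inter hB') = 0 := by
          unfold phi
          rw [hcut0 _ (hB.inter hB') hdisj]
          ext f
          change L1.integralCLM (α := ℝ) (E := ℝ) (μ := lam) 0 = 0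
          exact map_zero _
        rw [e2]
        simp
      rw [e1, norm_cut hB f]
      refine (norm_sub_le _ _).trans (add_le_add (abs_phi_le hB f) ?_)
      exact (abs_phi_le hB' _).trans (norm_cut_le hB' _)
    have q1 : D1 k = 1 := by
      have e1 : D1 (phi lam hB) = 1 := atom_eq l1 (IsLim.of_cut hB b1 (by
        rw [one_smul, phi_comp_cut]; unfold phi; rw [cut_congr (hB.inter hB) hB (Set.inter_self _)]))
      have e2 : D1 (phi lam hB') = 0 := s1 _ (by
        rw [phi_comp_cut]; unfold phi; rw [cut_congr (hB'.inter hB') hB' (Set.inter_self _)])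
      rw [hk, map_sub, e1, e2, sub_zero]
    have q2 : D2 k = -1 := by
      have e1 : D2 (phi lam hB') = 1 := atom_eq l2 (IsLim.of_cut hB' b2 (by
        rw [one_smul, phi_comp_cut]; unfold phi
        rw [cut_congr (hB'.inter hB') hB' (Set.inter_self _)]))
      have e2 : D2 (phi lam hB) = 0 := s2 _ (by
        rw [phi_comp_cut]; unfold phi; rw [cut_congr (hB.inter hB) hB (Set.inter_self _)])
      rw [hk, map_sub, e1, e2, zero_sub]
    have h1 := (x - y).le_opNorm k
    have h2 : (x - y) k = ((3 / 4 : ℝ) * D1 k + (1 / 4 : ℝ) * D2 k)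
        - ((1 / 4 : ℝ) * D1 k + (3 / 4 : ℝ) * D2 k) := rfl
    rw [h2, q1, q2] at h1
    have h4 : ‖x - y‖ * ‖k‖ ≤ ‖x - y‖ * 1 :=
      mul_le_mul_of_nonneg_left hk1 (ContinuousLinearMap.opNorm_nonneg _)
    norm_num at h1
    linarith
  -- small perturbations do not distinguish the two points
  have hzero : U x y (1 / 4) ≤ 0 := by
    refine Real.sSup_le ?_ le_rfl
    rintro r ⟨z, hz, rfl⟩
    have k1 := norm_add_atom (μ := lam) l1 hB b1 ((1 / 4 : ℝ) • D2) z (fun h hh => by
      change (1 / 4 : ℝ) * D2 h = 0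
      rw [s2 h hh, mul_zero]) hz (show (0 : ℝ) ≤ 1 / 2 by norm_num)
    have k2 := norm_add_atom (μ := lam) l2 hB' b2 ((1 / 4 : ℝ) • D1) z (fun h hh => by
      change (1 / 4 : ℝ) * D1 h = 0
      rw [s1 h hh, mul_zero]) hz (show (0 : ℝ) ≤ 1 / 2 by norm_num)
    have e1 : x + z = ((1 / 4 : ℝ) • D1 + (1 / 4 : ℝ) • D2 + z) + (1 / 2 : ℝ) • D1 := by
      ext h
      change ((3 / 4 : ℝ) * D1 h + (1 / 4 : ℝ) * D2 h) + z h
        = (((1 / 4 : ℝ) * D1 h + (1 / 4 : ℝ) * D2 h) + z h) + (1 / 2 : ℝ) * D1 h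
      ring
    have e2 : y + z = ((1 / 4 : ℝ) • D2 + (1 / 4 : ℝ) • D1 + z) + (1 / 2 : ℝ) • D2 := by
      ext h
      change ((1 / 4 : ℝ) * D1 h + (3 / 4 : ℝ) * D2 h) + z h
        = (((1 / 4 : ℝ) * D2 h + (1 / 4 : ℝ) * D1 h) + z h) + (1 / 2 : ℝ) * D2 h
      ring
    have e3 : (1 / 4 : ℝ) • D2 + (1 / 4 : ℝ) • D1 + z = (1 / 4 : ℝ) • D1 + (1 / 4 : ℝ) • D2 + z := by
      ext h
      change ((1 / 4 : ℝ) * D2 h + (1 / 4 : ℝ) * D1 h) + z h
        = ((1 / 4 : ℝ) * D1 h + (1 / 4 : ℝ) * D2 h) + z h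
      ring
    rw [e1, e2, k1, k2, e3, sub_self, abs_zero]
  have := H x y hxn hyn hdist
  linarith

/-- **Uniform property (S) does not pass to the bidual**: the real Banach space `L₁[0,1]` has uniform
property (S), its bidual does not have it. -/
theorem result : UniformS L1I ∧ ¬ UniformS (StrongDual ℝ (StrongDual ℝ L1I)) :=
  ⟨uniformS_L1, not_uniformS_bidual⟩

end Pool.Agent.Results.MP_973dba_an.BidualFails
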